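import Pool.Agent.W300.FT.Stm

/-!
# Project FT, part INV: invariance of the process
-/

set_option autoImplicit false

open MeasureTheory ProbabilityTheory

namespace Pool.Agent.W298.FT.INV

open Pool.Agent.W300.FT

instance : IsProbabilityMeasure coin := by
  refine ⟨?_⟩
  unfold coin
  simp [ENNReal.inv_two_add_inv_two]

theorem map_PC (E : Type) (σ : E ≃ E) :
    (PC E).map (fun (w : E → Bool) e => w (σ e)) = PC E := by
  have h := Measure.infinitePi_map_piCongrLeft (μ := fun _ : E => coin) σ.symm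
  have h2 : (MeasurableEquiv.piCongrLeft (fun _ : E => Bool) σ.symm : (E → Bool) → (E → Bool)) =
      fun (w : E → Bool) e => w (σ e) := by
    funext w e
    have h3 := Equiv.piCongrLeft_apply_apply (fun _ : E => Bool) σ.symm w (σ e)
    rw [Equiv.symm_apply_apply] at h3
    exact h3
  rw [h2] at h
  exact h

section
variable {V : Type} {G : SimpleGraph V} (φ : G ≃g G) (w : V × K → Bool)

theorem et_iff (c : ℕ × ℕ) (j : ℕ) (v : V) :
    et G w c j (φ v) ↔ et G (fun e => w (φ e.1, e.2)) c j v := by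
  unfold et
  have h := φ.toEquiv.bijective.existsUnique_iff
    (p := fun u => G.Adj (φ v) u ∧ w (u, (c, j, 0)) = true)
  refine h.trans ?_
  refine existsUnique_congr fun u => ?_
  refine and_congr ?_ Iff.rfl
  exact φ.map_adj_iff

theorem mt_iff (c : ℕ × ℕ) (j : ℕ) (u v : V) :
    mt G w c j (φ u) (φ v) ↔ mt G (fun e => w (φ e.1, e.2)) c j u v := by
  unfold Pool.Agent.W300.FT.mt
  rw [et_iff, et_iff, φ.map_adj_iff]

theorem Ch_iff (c : ℕ × ℕ) (γ : ℕ → V) :
    Ch G w c (fun n => φ (γ n)) ↔ Ch G (fun e => w (φ e.1, e.2)) c γ := by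
  unfold Ch
  refine forall_congr' fun j => forall_congr' fun _ => ?_
  exact mt_iff φ w c j _ _

theorem hex (Q : (ℕ → V) → Prop) : (∃ γ, Q γ) ↔ ∃ γ : ℕ → V, Q (fun n => φ (γ n)) := by
  constructor
  · rintro ⟨γ, h⟩
    refine ⟨fun n => φ.symm (γ n), ?_⟩
    have h1 : (fun n => φ (φ.symm (γ n))) = γ := by
      funext n
      exact φ.apply_symm_apply (γ n)
    rw [h1]
    exact h
  · rintro ⟨γ, h⟩
    exact ⟨_, h⟩

theorem psi_eq (v : V) (k : K) :
    Psi G w (φ v) k = Psi G (fun e => w (φ e.1, e.2)) v k := by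
  unfold Psi
  have h1 : (∃ γ : ℕ → V, γ 1 = φ v ∧ Ch G w k.1 γ) ↔
      ∃ γ : ℕ → V, γ 1 = v ∧ Ch G (fun e => w (φ e.1, e.2)) k.1 γ := by
    rw [hex φ]
    refine exists_congr fun γ => and_congr ?_ (Ch_iff φ w k.1 γ)
    exact φ.injective.eq_iff
  have h2 : (∃ γ : ℕ → V, γ 1 = φ v ∧ Ch G w k.1 γ ∧ fm w k.1 k.2.2 γ = 1) ↔
      ∃ γ : ℕ → V, γ 1 = v ∧ Ch G (fun e => w (φ e.1, e.2)) k.1 γ ∧
        fm (fun e => w (φ e.1, e.2)) k.1 k.2.2 γ = 1 := by
    rw [hex φ]
    refine exists_congr fun γ => and_congr ?_ (and_congr (Ch_iff φ w k.1 γ) Iff.rfl)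
    exact φ.injective.eq_iff
  by_cases c1 : k.2.2 = 0
  · rw [if_pos c1, if_pos c1]
  rw [if_neg c1, if_neg c1]
  by_cases c2 : k.2.2 = 1
  · rw [if_pos c2, if_pos c2]
    exact decide_eq_decide.mpr (et_iff φ w _ _ _)
  rw [if_neg c2, if_neg c2]
  by_cases c3 : k.2.1 = 1 ∧ ∃ γ : ℕ → V, γ 1 = φ v ∧ Ch G w k.1 γ
  · rw [if_pos c3, if_pos ⟨c3.1, h1.mp c3.2⟩]
    exact decide_eq_decide.mpr h2
  · rw [if_neg c3, if_neg (fun h => c3 ⟨h.1, h1.mpr h.2⟩)]

end

theorem inv (hm : S_MEAS) : S_INV := by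
  intro V G hV φ
  have hPsi : Measurable (Psi G) := (hm V G Set.univ hV).1
  have hshift : Measurable (fun x : V → K → Bool => fun v => x (φ v)) :=
    measurable_pi_lambda _ fun v => measurable_pi_apply _
  have hw : Measurable (fun (w : V × K → Bool) (e : V × K) => w (φ e.1, e.2)) :=
    measurable_pi_lambda _ fun e => measurable_pi_apply _
  have hσ := map_PC (V × K) (φ.toEquiv.prodCongr (Equiv.refl K))
  have hσ' : (PC (V × K)).map (fun (w : V × K → Bool) (e : V × K) => w (φ e.1, e.2)) =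
      PC (V × K) := hσ
  unfold muX
  rw [Measure.map_map hshift hPsi]
  have hcomp : (fun x : V → K → Bool => fun v => x (φ v)) ∘ Psi G =
      Psi G ∘ (fun (w : V × K → Bool) (e : V × K) => w (φ e.1, e.2)) := by
    funext w v k
    exact psi_eq φ w v k
  rw [hcomp, ← Measure.map_map hPsi hw, hσ']

end Pool.Agent.W298.FT.INV
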